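import Mathlib

/-! Finitely generated groups of units: bases, heights. -/

set_option autoImplicit false

namespace Pool.Agent.N120.TC

open Finset

/-- a basis of a finitely generated subgroup of `Kˣ` modulo torsion -/
theorem exists_basis {K : Type} [Field K] (Γ : Subgroup Kˣ) (hΓ : Γ.FG) :
    ∃ (γ : Fin (Module.finrank ℤ (Additive Γ)) → Kˣ) (R : Finset Kˣ),
      (∀ j, γ j ∈ Γ) ∧ (∀ ω ∈ R, ω ∈ Γ) ∧
      (∀ x ∈ Γ, ∃ ω ∈ R, ∃ e : Fin (Module.finrank ℤ (Additive Γ)) → ℤ,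
        x = ω * ∏ j, γ j ^ e j) ∧
      (∀ e : Fin (Module.finrank ℤ (Additive Γ)) → ℤ, ∏ j, γ j ^ e j = 1 → e = 0) := by
  classical
  haveI : Group.FG Γ := (Group.fg_iff_subgroup_fg _).2 hΓ
  haveI : AddGroup.FG (Additive Γ) := inferInstance
  haveI : Module.Finite ℤ (Additive Γ) := Module.Finite.iff_addGroup_fg.2 inferInstance
  obtain ⟨r, hr⟩ : ∃ r, r = Module.finrank ℤ (Additive Γ) := ⟨_, rfl⟩
  rw [← hr]
  haveI : Module.Free ℤ (Additive Γ ⧸ Submodule.torsion ℤ (Additive Γ)) := inferInstance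
  have hfr : Module.finrank ℤ (Additive Γ ⧸ Submodule.torsion ℤ (Additive Γ)) = r := by
    rw [hr]
    exact finrank_quotient_eq_of_le_torsion le_rfl
  let b := Module.finBasisOfFinrankEq ℤ (Additive Γ ⧸ Submodule.torsion ℤ (Additive Γ)) hfr
  have hlift : ∀ j : Fin r, ∃ a : Additive Γ, (Submodule.torsion ℤ (Additive Γ)).mkQ a = b j :=
    fun j => Submodule.mkQ_surjective _ (b j)
  choose a ha using hlift
  haveI : Finite (Submodule.torsion ℤ (Additive Γ)) := by
    refine Module.finite_of_fg_torsion _ ?_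
    exact Submodule.torsion_isTorsion
  haveI : Fintype (Submodule.torsion ℤ (Additive Γ)) := Fintype.ofFinite _
  have key : ∀ e : Fin r → ℤ, ((Additive.toMul (∑ j, e j • a j) : Γ) : Kˣ) =
      ∏ j, (((Additive.toMul (a j) : Γ) : Kˣ)) ^ e j := by
    intro e
    rw [toMul_sum, Subgroup.val_finset_prod]
    refine prod_congr rfl ?_
    intro j _
    rw [toMul_zsmul, Subgroup.coe_zpow]
  obtain ⟨R, hR⟩ : ∃ R : Finset Kˣ, ∀ ω, ω ∈ R ↔ ∃ t : Submodule.torsion ℤ (Additive Γ),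
      ((Additive.toMul (t : Additive Γ) : Γ) : Kˣ) = ω := by
    refine ⟨(Finset.univ : Finset (Submodule.torsion ℤ (Additive Γ))).image
      (fun t : Submodule.torsion ℤ (Additive Γ) =>
        ((Additive.toMul (t : Additive Γ) : Γ) : Kˣ)), fun ω => ?_⟩
    rw [Finset.mem_image]
    constructor
    · rintro ⟨t, _, h⟩
      exact ⟨t, h⟩
    · rintro ⟨t, h⟩
      exact ⟨t, Finset.mem_univ _, h⟩
  refine ⟨fun j => ((Additive.toMul (a j) : Γ) : Kˣ), R, ?_, ?_, ?_, ?_⟩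
  · intro j
    exact (Additive.toMul (a j) : Γ).2
  · intro ω hω
    obtain ⟨t, rfl⟩ := (hR ω).1 hω
    exact (Additive.toMul (t : Additive Γ) : Γ).2
  · intro x hx
    obtain ⟨z, hz⟩ : ∃ z : Additive Γ, z = Additive.ofMul ⟨x, hx⟩ := ⟨_, rfl⟩
    obtain ⟨e, he⟩ : ∃ e : Fin r → ℤ,
      e = fun j => b.repr ((Submodule.torsion ℤ (Additive Γ)).mkQ z) j := ⟨_, rfl⟩
    have h1 : z - ∑ j, e j • a j ∈ Submodule.torsion ℤ (Additive Γ) := by
      rw [← Submodule.ker_mkQ (Submodule.torsion ℤ (Additive Γ)), LinearMap.mem_ker, map_sub,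
        map_sum, sub_eq_zero]
      have h2 : ∑ j, (Submodule.torsion ℤ (Additive Γ)).mkQ (e j • a j) = ∑ j, e j • b j := by
        refine sum_congr rfl ?_
        intro j _
        rw [map_zsmul, ha]
      rw [h2, he]
      exact (b.sum_repr _).symm
    refine ⟨_, (hR _).2 ⟨⟨_, h1⟩, rfl⟩, e, ?_⟩
    rw [← key e]
    have h2 : z = (z - ∑ j, e j • a j) + ∑ j, e j • a j := by abel
    have h3 : (Additive.toMul z : Γ) =
        Additive.toMul (z - ∑ j, e j • a j) * Additive.toMul (∑ j, e j • a j) := by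
      rw [← toMul_add, ← h2]
    have h4 : ((Additive.toMul z : Γ) : Kˣ) =
        ((Additive.toMul (z - ∑ j, e j • a j) : Γ) : Kˣ) *
          ((Additive.toMul (∑ j, e j • a j) : Γ) : Kˣ) := by
      rw [← Subgroup.coe_mul, ← h3]
    have h5 : x = ((Additive.toMul z : Γ) : Kˣ) := by rw [hz]; rfl
    exact h5.trans h4
  · intro e he
    rw [← key e] at he
    have h1 : ∑ j, e j • a j = 0 := by
      have h2 : (Additive.toMul (∑ j, e j • a j) : Γ) = 1 := Subtype.ext he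
      exact h2
    have h2 : ∑ j, e j • b j = 0 := by
      have h3 := congrArg (Submodule.torsion ℤ (Additive Γ)).mkQ h1
      rw [map_sum, map_zero] at h3
      rw [← h3]
      refine sum_congr rfl ?_
      intro j _
      rw [map_zsmul, ha]
    have h3 := Fintype.linearIndependent_iff.1 b.linearIndependent e h2
    funext j
    exact h3 j

/-- the height as a function of the exponents is bounded from below by a norm -/
theorem norm_lower (K : Type) [Field K] [NumberField K] {r : ℕ} (γ : Fin r → Kˣ)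
    (hind : ∀ e : Fin r → ℤ, ∏ j, γ j ^ e j = 1 → e = 0) :
    ∃ c : ℕ, 1 ≤ c ∧ ∀ (e : Fin r → ℤ) (j : Fin r),
      |(e j : ℝ)| ≤ c * Height.logHeight₁ (((∏ j, γ j ^ e j : Kˣ)) : K) := by
  classical
  obtain ⟨H, hH⟩ : ∃ H : (Fin r → ℤ) → ℝ, H = fun e =>
    Height.logHeight₁ (((∏ j, γ j ^ e j : Kˣ)) : K) := ⟨_, rfl⟩
  have hH0 : ∀ e, 0 ≤ H e := by intro e; rw [hH]; exact Height.zero_le_logHeight₁ _
  have hadd : ∀ e f, H (e + f) ≤ H e + H f := by
    intro e f
    rw [hH]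
    have h1 : ∏ j, γ j ^ (e + f) j = (∏ j, γ j ^ e j) * ∏ j, γ j ^ f j := by
      rw [← prod_mul_distrib]
      refine prod_congr rfl ?_
      intro j _
      rw [Pi.add_apply, zpow_add]
    show Height.logHeight₁ (((∏ j, γ j ^ (e + f) j : Kˣ)) : K) ≤ _
    rw [h1, Units.val_mul]
    exact Height.logHeight₁_mul_le _ _
  have hsmul : ∀ (k : ℕ) e, H (fun j => (k : ℤ) * e j) = k * H e := by
    intro k e
    rw [hH]
    have h1 : ∏ j, γ j ^ ((k : ℤ) * e j) = (∏ j, γ j ^ e j) ^ k := by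
      rw [← prod_pow]
      refine prod_congr rfl ?_
      intro j _
      rw [mul_comm, zpow_mul, zpow_natCast]
    show Height.logHeight₁ (((∏ j, γ j ^ ((k : ℤ) * e j) : Kˣ)) : K) = _
    rw [h1, Units.val_pow_eq_pow_val]
    exact Height.logHeight₁_pow _ _
  obtain ⟨A, hA⟩ : ∃ A : ℝ, A = ∑ j, Height.logHeight₁ ((γ j : Kˣ) : K) := ⟨_, rfl⟩
  have hA0 : 0 ≤ A := by rw [hA]; exact sum_nonneg fun j _ => Height.zero_le_logHeight₁ _
  have hle : ∀ (u : Fin r → ℤ) (E : ℝ), (∀ j, |(u j : ℝ)| ≤ E) → H u ≤ A * E := by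
    intro u E hu
    rw [hH]
    show Height.logHeight₁ (((∏ j, γ j ^ u j : Kˣ)) : K) ≤ _
    rw [Units.coe_prod]
    refine (Height.logHeight₁_prod_le _ _).trans ?_
    rw [hA, sum_mul]
    refine sum_le_sum ?_
    intro j _
    rw [Units.val_zpow_eq_zpow_val, Height.logHeight₁_zpow, mul_comm]
    refine mul_le_mul_of_nonneg_left ?_ (Height.zero_le_logHeight₁ _)
    refine le_trans (le_of_eq ?_) (hu j)
    rw [Nat.cast_natAbs, Int.cast_abs]
  -- finiteness
  have hfin : {f : Fin r → ℤ | H f ≤ 1 + A}.Finite := by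
    have h1 := NumberField.finite_setOfPred_logHeight₁_le K (1 + A)
    refine Set.Finite.of_finite_image (f := fun f : Fin r → ℤ => (((∏ j, γ j ^ f j : Kˣ)) : K))
      (h1.subset ?_) ?_
    · rintro _ ⟨f, hf, rfl⟩
      rw [hH] at hf
      exact hf
    · intro f _ f' _ hff
      have h2 : ∏ j, γ j ^ f j = ∏ j, γ j ^ f' j := Units.ext hff
      have h3 : ∏ j, γ j ^ (f j - f' j) = 1 := by
        have h4 : ∏ j, γ j ^ (f j - f' j) = (∏ j, γ j ^ f j) / ∏ j, γ j ^ f' j := by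
          rw [← prod_div_distrib]
          refine prod_congr rfl ?_
          intro j _
          rw [zpow_sub, div_eq_mul_inv]
        rw [h4, h2, div_self']
      have h4 := hind _ h3
      funext j
      have := congrFun h4 j
      simp only [Pi.zero_apply] at this
      omega
  obtain ⟨R, hR⟩ : ∃ R : ℕ, ∀ f : Fin r → ℤ, H f ≤ 1 + A → ∀ j, (f j).natAbs ≤ R := by
    refine ⟨hfin.toFinset.sup (fun f => univ.sup (fun j => (f j).natAbs)), ?_⟩
    intro f hf j
    have h1 : (f j).natAbs ≤ univ.sup (fun j => (f j).natAbs) :=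
      le_sup (f := fun j => (f j).natAbs) (mem_univ j)
    have h2 : univ.sup (fun j => (f j).natAbs) ≤
        hfin.toFinset.sup (fun f => univ.sup (fun j => (f j).natAbs)) :=
      le_sup (f := fun f : Fin r → ℤ => univ.sup (fun j => (f j).natAbs))
        (hfin.mem_toFinset.2 hf)
    exact h1.trans h2
  refine ⟨R + 1, by omega, ?_⟩
  intro e j
  have hHe : Height.logHeight₁ (((∏ j, γ j ^ e j : Kˣ)) : K) = H e := by rw [hH]
  rw [hHe]
  -- an index where the maximum is attained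
  obtain ⟨j1, _, hj1⟩ := exists_max_image (univ : Finset (Fin r)) (fun j => |(e j : ℝ)|)
    ⟨j, mem_univ j⟩
  refine (hj1 j (mem_univ j)).trans ?_
  by_contra hcon
  rw [not_le] at hcon
  obtain ⟨E, hE⟩ : ∃ E : ℕ, E = (e j1).natAbs := ⟨_, rfl⟩
  have hEr : |(e j1 : ℝ)| = (E : ℝ) := by
    rw [hE, Nat.cast_natAbs, Int.cast_abs]
  rw [hEr] at hcon
  push_cast at hcon
  have hR0 : (0 : ℝ) ≤ ((R : ℝ) + 1) * H e := mul_nonneg (by positivity) (hH0 e)
  have hE0 : (0 : ℝ) < E := lt_of_le_of_lt hR0 hcon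
  obtain ⟨f, hf⟩ : ∃ f : Fin r → ℤ, f = fun j => round (((R : ℝ) + 1) * e j / E) := ⟨_, rfl⟩
  have hfu : ∀ j, |(E : ℝ) * f j - ((R : ℝ) + 1) * e j| ≤ E / 2 := by
    intro j
    have h1 := abs_sub_round (((R : ℝ) + 1) * e j / E)
    have h2 : (E : ℝ) * f j - ((R : ℝ) + 1) * e j =
        -(E * (((R : ℝ) + 1) * e j / E - f j)) := by
      field_simp
      ring
    rw [h2, abs_neg, abs_mul, abs_of_pos hE0]
    have h3 : (f j : ℝ) = ((round (((R : ℝ) + 1) * e j / E) : ℤ) : ℝ) := by rw [hf]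
    rw [h3]
    have := mul_le_mul_of_nonneg_left h1 hE0.le
    linarith
  obtain ⟨u, hu⟩ : ∃ u : Fin r → ℤ, u = fun j => (E : ℤ) * f j - ((R + 1 : ℕ) : ℤ) * e j :=
    ⟨_, rfl⟩
  have hu1 : ∀ j, |(u j : ℝ)| ≤ E / 2 := by
    intro j
    rw [hu]
    push_cast
    exact hfu j
  have h1 : H (fun j => ((E : ℕ) : ℤ) * f j) ≤ H (fun j => ((R + 1 : ℕ) : ℤ) * e j) + H u := by
    have h2 : (fun j => ((E : ℕ) : ℤ) * f j) = (fun j => ((R + 1 : ℕ) : ℤ) * e j) + u := by
      funext j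
      rw [Pi.add_apply, hu]
      ring
    rw [h2]
    exact hadd _ _
  rw [hsmul, hsmul] at h1
  have h2 := hle u (E / 2) hu1
  push_cast at h1
  have h3 : (E : ℝ) * H f ≤ E * (1 + A) := by nlinarith
  have h4 : H f ≤ 1 + A := le_of_mul_le_mul_left h3 hE0
  have h5 := hR f h4 j1
  have h6 : |(f j1 : ℝ)| ≤ R := by
    have h7 : (((f j1).natAbs : ℕ) : ℝ) ≤ R := by exact_mod_cast h5
    rwa [Nat.cast_natAbs, Int.cast_abs] at h7
  have h7 := hfu j1
  have h8 : |((R : ℝ) + 1) * e j1| = ((R : ℝ) + 1) * E := by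
    rw [abs_mul, hEr, abs_of_nonneg (by positivity)]
  have h9 : |(E : ℝ) * f j1| ≤ E * R := by
    rw [abs_mul, abs_of_pos hE0]
    exact mul_le_mul_of_nonneg_left h6 hE0.le
  have h10 : |((R : ℝ) + 1) * e j1| ≤ |(E : ℝ) * f j1| +
      |(E : ℝ) * f j1 - ((R : ℝ) + 1) * e j1| := by
    have h11 := abs_sub_abs_le_abs_sub (((R : ℝ) + 1) * e j1) ((E : ℝ) * f j1)
    rw [abs_sub_comm (((R : ℝ) + 1) * e j1)] at h11
    linarith
  rw [h8] at h10
  nlinarith

end Pool.Agent.N120.TC
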